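import Mathlib
import Pool.Agent.W695.KH.Defs

/-!
# Project KH: the near-generator identity
-/

set_option autoImplicit false

namespace Pool.Agent.W500.KH

open MeasureTheory Set Filter Topology Pool.Agent.W695.KH
open scoped InnerProductSpace

variable {κ : Type} [Fintype κ] {U : Eu κ → ℝ} {b : Eu κ → Eu κ} {A : ℝ}

lemma contU (hP : Pot U b A) : Continuous U :=
  continuous_iff_continuousAt.mpr fun x => (hP.der x).continuousAt

lemma contb (hP : Pot U b A) : Continuous b := by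
  have h : LipschitzWith (Real.toNNReal A) b := by
    refine LipschitzWith.of_dist_le_mul fun x y => ?_
    rw [dist_eq_norm, dist_eq_norm, Real.coe_toNNReal _ hP.pos.le]
    exact hP.lip x y
  exact h.continuous

lemma contE (hP : Pot U b A) : Continuous fun x => Real.exp (-U x) :=
  Real.continuous_exp.comp (contU hP).neg

lemma intE (hP : Pot U b A) : Integrable fun x => Real.exp (-U x) := by
  refine hP.int.mono' (contE hP).aestronglyMeasurable (Eventually.of_forall fun x => ?_)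
  rw [Real.norm_of_nonneg (Real.exp_pos _).le]
  have := Real.exp_pos (-U x)
  nlinarith [sq_nonneg ‖b x‖]

lemma intB1 (hP : Pot U b A) : Integrable fun x => (1 + ‖b x‖) * Real.exp (-U x) := by
  refine (hP.int.const_mul 2).mono' (((continuous_const.add (contb hP).norm).mul
    (contE hP)).aestronglyMeasurable) (Eventually.of_forall fun x => ?_)
  rw [Real.norm_of_nonneg (mul_nonneg (by positivity) (Real.exp_pos _).le)]
  have h1 : 1 + ‖b x‖ ≤ 2 * (1 + ‖b x‖ ^ 2) := by nlinarith [sq_nonneg (‖b x‖ - 1)]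
  nlinarith [mul_le_mul_of_nonneg_right h1 (Real.exp_pos (-U x)).le]

variable {f : Eu κ → ℝ} {Lf Mf : ℝ} {u : Eu κ → ℝ} {L M : ℝ}

lemma contf (hf : Sm f Lf Mf) : Continuous f := hf.diff.continuous

lemma contdf (hf : Sm f Lf Mf) : Continuous (fderiv ℝ f) := hf.diff.continuous_fderiv one_ne_zero

lemma difff (hf : Sm f Lf Mf) (x : Eu κ) : HasFDerivAt f (fderiv ℝ f x) x :=
  (hf.diff.differentiable one_ne_zero x).hasFDerivAt

/-- the density -/
noncomputable def ph (f U : Eu κ → ℝ) (x : Eu κ) : ℝ := f x * Real.exp (-U x)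

lemma contph (hP : Pot U b A) (hf : Sm f Lf Mf) : Continuous (ph f U) :=
  (contf hf).mul (contE hP)

lemma abs_ph_le (hf : Sm f Lf Mf) (x : Eu κ) : |ph f U x| ≤ Real.exp (-U x) := by
  unfold ph
  rw [abs_mul, abs_of_pos (Real.exp_pos _)]
  nlinarith [hf.bdd x, Real.exp_pos (-U x), abs_nonneg (f x)]

lemma intph (hP : Pot U b A) (hf : Sm f Lf Mf) : Integrable (ph f U) :=
  (intE hP).mono' (contph hP hf).aestronglyMeasurable (Eventually.of_forall fun x => abs_ph_le hf x)

lemma abs_fd_le (hu : Sm u L M) (x h : Eu κ) : |fderiv ℝ u x h| ≤ L * ‖h‖ := by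
  have h1 := (fderiv ℝ u x).le_opNorm h
  rw [Real.norm_eq_abs] at h1
  exact h1.trans (mul_le_mul_of_nonneg_right (hu.grad x) (norm_nonneg _))

lemma contfd (hu : Sm u L M) (h : Eu κ) : Continuous fun x => fderiv ℝ u x h :=
  (contdf hu).clm_apply continuous_const

/-- derivative of `r ↦ ∫ φ(x) u(x + r h)` -/
lemma hasDerivAt_G (hP : Pot U b A) (hf : Sm f Lf Mf) (hu : Sm u L M) (h : Eu κ) (r : ℝ) :
    HasDerivAt (fun r : ℝ => ∫ x, ph f U x * u (x + r • h))
      (∫ x, ph f U x * fderiv ℝ u (x + r • h) h) r := by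
  have hL : 0 ≤ L := (norm_nonneg _).trans (hu.grad 0)
  refine (hasDerivAt_integral_of_dominated_loc_of_deriv_le (s := univ)
    (bound := fun x => Real.exp (-U x) * (L * ‖h‖))
    (F := fun (r : ℝ) x => ph f U x * u (x + r • h))
    (F' := fun (r : ℝ) x => ph f U x * fderiv ℝ u (x + r • h) h) univ_mem ?_ ?_ ?_ ?_ ?_ ?_).2
  · refine Eventually.of_forall fun s => ?_
    exact ((contph hP hf).mul ((contf hu).comp (continuous_id.add
      continuous_const))).aestronglyMeasurable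
  · refine (intph hP hf).norm.mono' ((contph hP hf).mul ((contf hu).comp (continuous_id.add
      continuous_const))).aestronglyMeasurable (Eventually.of_forall fun x => ?_)
    rw [norm_mul]
    exact mul_le_of_le_one_right (norm_nonneg _) (hu.bdd _)
  · exact ((contph hP hf).mul ((contfd hu h).comp (continuous_id.add
      continuous_const))).aestronglyMeasurable
  · refine Eventually.of_forall fun x s _ => ?_
    rw [norm_mul]
    exact mul_le_mul (abs_ph_le hf x) (abs_fd_le hu _ _) (norm_nonneg _) (Real.exp_pos _).le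
  · exact (intE hP).mul_const _
  · refine Eventually.of_forall fun x s _ => ?_
    have h1 : HasDerivAt (fun s : ℝ => x + s • h) h s := by
      have := ((hasDerivAt_id s).smul_const h).const_add x
      simpa using this
    have h2 := (difff hu (x + s • h)).comp_hasDerivAt s h1
    exact h2.const_mul _

lemma intdph (hP : Pot U b A) (hf : Sm f Lf Mf) (h : Eu κ) :
    Integrable fun x => dph f U b x h := by
  have hc : Continuous fun x => dph f U b x h := by
    unfold dph
    exact (((contfd hf h).sub ((contf hf).mul ((contb hP).inner continuous_const))).mul (contE hP))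
  have hL : 0 ≤ Lf := (norm_nonneg _).trans (hf.grad 0)
  refine ((intB1 hP).const_mul ((Lf + 1) * ‖h‖)).mono' hc.aestronglyMeasurable
    (Eventually.of_forall fun x => ?_)
  unfold dph
  rw [norm_mul, Real.norm_of_nonneg (Real.exp_pos (-U x)).le]
  have h1 : ‖fderiv ℝ f x h - f x * ⟪b x, h⟫_ℝ‖ ≤ (Lf + 1) * ‖h‖ * (1 + ‖b x‖) := by
    refine (norm_sub_le _ _).trans ?_
    have h2 : ‖fderiv ℝ f x h‖ ≤ Lf * ‖h‖ := abs_fd_le hf x h
    have h3 : ‖f x * ⟪b x, h⟫_ℝ‖ ≤ ‖b x‖ * ‖h‖ := by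
      rw [norm_mul]
      have h4 : ‖⟪b x, h⟫_ℝ‖ ≤ ‖b x‖ * ‖h‖ := norm_inner_le_norm _ _
      have h5 : ‖f x‖ ≤ 1 := hf.bdd x
      calc ‖f x‖ * ‖⟪b x, h⟫_ℝ‖ ≤ 1 * (‖b x‖ * ‖h‖) :=
            mul_le_mul h5 h4 (norm_nonneg _) (by norm_num)
        _ = _ := by ring
    have h6 : 0 ≤ ‖b x‖ := norm_nonneg _
    have h7 : 0 ≤ ‖h‖ := norm_nonneg _
    nlinarith [mul_nonneg h6 h7, mul_nonneg hL h7, mul_nonneg (mul_nonneg hL h7) h6]
  nlinarith [mul_le_mul_of_nonneg_right h1 (Real.exp_pos (-U x)).le]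

/-- CLAIM 1 -/
lemma claim1 (hP : Pot U b A) (hf : Sm f Lf Mf) (hu : Sm u L M) {C : ℝ} (hC : 0 ≤ C)
    (ht : ∀ w : Eu κ, (Integrable fun x => |ph f U (x - w) - ph f U x + dph f U b x w|) ∧
      (∫ x, |ph f U (x - w) - ph f U x + dph f U b x w| ≤ C * ‖w‖ ^ 2 * (1 + ‖w‖) ^ 3))
    (h : Eu κ) :
    Integrable (fun x => ph f U x * (u x - u (x + h)) + ph f U x * fderiv ℝ u x h -
      1 / 2 * (dph f U b x h * fderiv ℝ u x h)) ∧
    |∫ x, (ph f U x * (u x - u (x + h)) + ph f U x * fderiv ℝ u x h -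
      1 / 2 * (dph f U b x h * fderiv ℝ u x h))| ≤ C * L * (‖h‖ ^ 3 * (1 + ‖h‖) ^ 3) := by
  have hL : 0 ≤ L := (norm_nonneg _).trans (hu.grad 0)
  have i1 : ∀ s : ℝ, Integrable fun x => ph f U x * u (x + s • h) := by
    intro s
    refine (intph hP hf).norm.mono' ((contph hP hf).mul ((contf hu).comp (continuous_id.add
      continuous_const))).aestronglyMeasurable (Eventually.of_forall fun x => ?_)
    rw [norm_mul]
    exact mul_le_of_le_one_right (norm_nonneg _) (hu.bdd _)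
  have i2 : Integrable fun x => ph f U x * fderiv ℝ u x h := by
    refine ((intE hP).mul_const (L * ‖h‖)).mono' ((contph hP hf).mul
      (contfd hu h)).aestronglyMeasurable (Eventually.of_forall fun x => ?_)
    rw [norm_mul]
    exact mul_le_mul (abs_ph_le hf x) (abs_fd_le hu _ _) (norm_nonneg _) (Real.exp_pos _).le
  have i3 : Integrable fun x => dph f U b x h * fderiv ℝ u x h := by
    refine ((intdph hP hf h).norm.mul_const (L * ‖h‖)).mono' ((intdph hP hf h).1.mul
      (contfd hu h).aestronglyMeasurable) (Eventually.of_forall fun x => ?_)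
    rw [norm_mul]
    exact mul_le_mul_of_nonneg_left (abs_fd_le hu _ _) (norm_nonneg _)
  set c1 : ℝ := ∫ x, ph f U x * fderiv ℝ u x h with hc1
  set B : ℝ := ∫ x, dph f U b x h * fderiv ℝ u x h with hB
  have hH : ∀ r : ℝ, HasDerivAt (fun r : ℝ => (∫ x, ph f U x * u (x + r • h)) - r * c1 +
      r ^ 2 / 2 * B) ((∫ x, ph f U x * fderiv ℝ u (x + r • h) h) - c1 + r * B) r := by
    intro r
    have h1 := hasDerivAt_G hP hf hu h r
    have h2 : HasDerivAt (fun r : ℝ => r * c1) c1 r := by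
      simpa using (hasDerivAt_id r).mul_const c1
    have h3 : HasDerivAt (fun r : ℝ => r ^ 2 / 2 * B) (r * B) r := by
      have := (((hasDerivAt_id r).pow 2).div_const 2).mul_const B
      refine this.congr_deriv ?_
      simp
    exact (h1.sub h2).add h3
  have hbd : ∀ r ∈ Ico (0 : ℝ) 1, ‖(∫ x, ph f U x * fderiv ℝ u (x + r • h) h) - c1 + r * B‖ ≤
      C * L * (‖h‖ ^ 3 * (1 + ‖h‖) ^ 3) := by
    intro r hr
    have e1 : ∫ x, ph f U x * fderiv ℝ u (x + r • h) h =
        ∫ x, ph f U (x - r • h) * fderiv ℝ u x h := by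
      rw [← integral_sub_right_eq_self (fun x => ph f U x * fderiv ℝ u (x + r • h) h) (r • h)]
      simp only [sub_add_cancel]
    have i4 : Integrable fun x => ph f U (x - r • h) * fderiv ℝ u x h := by
      refine (((intE hP).comp_sub_right (r • h)).mul_const (L * ‖h‖)).mono'
        (((contph hP hf).comp (continuous_id.sub continuous_const)).mul
        (contfd hu h)).aestronglyMeasurable (Eventually.of_forall fun x => ?_)
      rw [norm_mul]
      exact mul_le_mul (abs_ph_le hf _) (abs_fd_le hu _ _) (norm_nonneg _) (Real.exp_pos _).le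
    have e2 : (∫ x, ph f U x * fderiv ℝ u (x + r • h) h) - c1 + r * B =
        ∫ x, (ph f U (x - r • h) - ph f U x + dph f U b x (r • h)) * fderiv ℝ u x h := by
      have i5 : Integrable fun x => ph f U (x - r • h) * fderiv ℝ u x h -
          ph f U x * fderiv ℝ u x h := i4.sub i2
      rw [e1, hc1, hB, ← integral_const_mul, ← integral_sub i4 i2,
        ← integral_add i5 (i3.const_mul r)]
      congr 1
      ext x
      have e3 : dph f U b x (r • h) = r * dph f U b x h := by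
        unfold dph
        rw [map_smul, inner_smul_right, smul_eq_mul]
        ring
      rw [e3]
      ring
    rw [e2]
    have h5 := ht (r • h)
    refine (norm_integral_le_of_norm_le (h5.1.mul_const (L * ‖h‖))
      (Eventually.of_forall fun x => ?_)).trans ?_
    · rw [norm_mul]
      exact mul_le_mul_of_nonneg_left (abs_fd_le hu _ _) (norm_nonneg _)
    · rw [integral_mul_const]
      have hr1 : ‖r • h‖ ≤ ‖h‖ := by
        rw [norm_smul, Real.norm_of_nonneg hr.1]
        exact mul_le_of_le_one_left (norm_nonneg _) hr.2.le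
      have h6 : C * ‖r • h‖ ^ 2 * (1 + ‖r • h‖) ^ 3 ≤ C * ‖h‖ ^ 2 * (1 + ‖h‖) ^ 3 := by
        gcongr
      calc (∫ x, |ph f U (x - r • h) - ph f U x + dph f U b x (r • h)|) * (L * ‖h‖)
          ≤ (C * ‖h‖ ^ 2 * (1 + ‖h‖) ^ 3) * (L * ‖h‖) :=
            mul_le_mul_of_nonneg_right (h5.2.trans h6) (by positivity)
        _ = _ := by ring
  have hfin := norm_image_sub_le_of_norm_deriv_le_segment_01'
    (fun r _ => (hH r).hasDerivWithinAt) hbd
  rw [Real.norm_eq_abs] at hfin
  have e5 : ∀ x, ph f U x * (u x - u (x + h)) + ph f U x * fderiv ℝ u x h -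
    1 / 2 * (dph f U b x h * fderiv ℝ u x h) =
    (ph f U x * u (x + (0 : ℝ) • h) - ph f U x * u (x + (1 : ℝ) • h)) +
      ph f U x * fderiv ℝ u x h - 1 / 2 * (dph f U b x h * fderiv ℝ u x h) := by
    intro x
    rw [zero_smul, one_smul, add_zero]
    ring
  have i6 : Integrable fun x => ph f U x * u (x + (0 : ℝ) • h) -
      ph f U x * u (x + (1 : ℝ) • h) := (i1 0).sub (i1 1)
  have i7 : Integrable fun x => ph f U x * u (x + (0 : ℝ) • h) -
      ph f U x * u (x + (1 : ℝ) • h) + ph f U x * fderiv ℝ u x h := i6.add i2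
  have i8 : Integrable fun x => ph f U x * u (x + (0 : ℝ) • h) -
      ph f U x * u (x + (1 : ℝ) • h) + ph f U x * fderiv ℝ u x h -
      1 / 2 * (dph f U b x h * fderiv ℝ u x h) := i7.sub (i3.const_mul _)
  have e4 : ∫ x, (ph f U x * (u x - u (x + h)) + ph f U x * fderiv ℝ u x h -
      1 / 2 * (dph f U b x h * fderiv ℝ u x h)) =
      -(((∫ x, ph f U x * u (x + (1 : ℝ) • h)) - 1 * c1 + 1 ^ 2 / 2 * B) -
        ((∫ x, ph f U x * u (x + (0 : ℝ) • h)) - 0 * c1 + 0 ^ 2 / 2 * B)) := by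
    rw [integral_congr_ae (Eventually.of_forall e5), integral_sub i7 (i3.const_mul _),
      integral_add i6 i2, integral_sub (i1 0) (i1 1), integral_const_mul,
      ← hc1, ← hB]
    ring
  refine ⟨i8.congr (Eventually.of_forall fun x => (e5 x).symm), ?_⟩
  rw [e4, abs_neg]
  exact hfin

/-- Taylor expansion of `u` with Lipschitz derivative -/
lemma taylor_u (hu : Sm u L M) (hM : 0 ≤ M) (x s : Eu κ) :
    |u x - u (x - s) - fderiv ℝ u x s| ≤ M * ‖s‖ ^ 2 := by
  have h1 := Convex.norm_image_sub_le_of_norm_fderiv_le' (𝕜 := ℝ) (f := u)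
    (s := Metric.closedBall x ‖s‖) (x := x) (y := x - s) (φ := fderiv ℝ u x) (C := M * ‖s‖)
    (fun y _ => hu.diff.differentiable one_ne_zero y)
    (fun y hy => by
      refine (hu.lip y x).trans (mul_le_mul_of_nonneg_left ?_ hM)
      rw [Metric.mem_closedBall, dist_eq_norm] at hy
      exact hy)
    (convex_closedBall x ‖s‖) (Metric.mem_closedBall_self (norm_nonneg _))
    (by rw [Metric.mem_closedBall, dist_eq_norm]; simp)
  have h2 : x - s - x = -s := by abel
  rw [h2, norm_neg, map_neg] at h1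
  rw [Real.norm_eq_abs, sub_neg_eq_add] at h1
  have h3 : u x - u (x - s) - fderiv ℝ u x s = -(u (x - s) - u x + fderiv ℝ u x s) := by ring
  rw [h3, abs_neg]
  nlinarith [h1]

/-- CLAIM 2 -/
lemma claim2 (hP : Pot U b A) (hf : Sm f Lf Mf) (hu : Sm u L M) (hM : 0 ≤ M) {C : ℝ}
    {t : ℝ} (ht0 : 0 ≤ t) (h : Eu κ)
    (i1 : Integrable fun x => |ph f U (x - h) - ph f U x| * (1 + ‖b x‖))
    (b1 : ∫ x, |ph f U (x - h) - ph f U x| * (1 + ‖b x‖) ≤ C * ‖h‖ * (1 + ‖h‖) ^ 3)
    (i2 : Integrable fun x => |ph f U (x - h)| * ‖b x‖ ^ 2)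
    (b2 : ∫ x, |ph f U (x - h)| * ‖b x‖ ^ 2 ≤ C * (1 + ‖h‖) ^ 2) :
    Integrable (fun x => ph f U x * (u (x + h) - u (x + h - t • b (x + h))) -
      t * (ph f U x * fderiv ℝ u x (b x))) ∧
    |∫ x, (ph f U x * (u (x + h) - u (x + h - t • b (x + h))) -
      t * (ph f U x * fderiv ℝ u x (b x)))| ≤
      C * (M * t ^ 2 * (1 + ‖h‖) ^ 2 + t * L * (‖h‖ * (1 + ‖h‖) ^ 3)) := by
  have hL : 0 ≤ L := (norm_nonneg _).trans (hu.grad 0)
  have cb := contb hP
  have cfb : Continuous fun x => fderiv ℝ u x (b x) := (contdf hu).clm_apply cb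
  have i3 : Integrable fun x => ph f U x * fderiv ℝ u x (b x) := by
    refine ((intB1 hP).const_mul L).mono' ((contph hP hf).mul cfb).aestronglyMeasurable
      (Eventually.of_forall fun x => ?_)
    rw [norm_mul]
    have h1 : ‖ph f U x‖ ≤ Real.exp (-U x) := abs_ph_le hf x
    have h2 : ‖fderiv ℝ u x (b x)‖ ≤ L * ‖b x‖ := abs_fd_le hu x (b x)
    calc ‖ph f U x‖ * ‖fderiv ℝ u x (b x)‖ ≤ Real.exp (-U x) * (L * ‖b x‖) :=
          mul_le_mul h1 h2 (norm_nonneg _) (Real.exp_pos _).le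
      _ ≤ L * ((1 + ‖b x‖) * Real.exp (-U x)) := by
          nlinarith [mul_nonneg hL (Real.exp_pos (-U x)).le]
  have i4 : Integrable fun x => ph f U x * (u (x + h) - u (x + h - t • b (x + h))) := by
    refine ((intE hP).mul_const 2).mono' ((contph hP hf).mul (((contf hu).comp
      (continuous_id.add continuous_const)).sub ((contf hu).comp
      ((continuous_id.add continuous_const).sub ((cb.comp
      (continuous_id.add continuous_const)).const_smul t))))).aestronglyMeasurable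
      (Eventually.of_forall fun x => ?_)
    rw [norm_mul]
    have h1 : ‖ph f U x‖ ≤ Real.exp (-U x) := abs_ph_le hf x
    have h2 : ‖u (x + h) - u (x + h - t • b (x + h))‖ ≤ 2 := by
      refine (norm_sub_le _ _).trans ?_
      have h3 : ‖u (x + h)‖ ≤ 1 := hu.bdd _
      have h4 : ‖u (x + h - t • b (x + h))‖ ≤ 1 := hu.bdd _
      linarith
    exact mul_le_mul h1 h2 (norm_nonneg _) (Real.exp_pos _).le
  have i5 : Integrable fun x => ph f U (x - h) * (u x - u (x - t • b x)) := by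
    have := i4.comp_sub_right h
    simpa only [sub_add_cancel] using this
  have i6 : Integrable fun x => (ph f U (x - h) - ph f U x) * fderiv ℝ u x (b x) := by
    refine (i1.const_mul L).mono' ((((contph hP hf).comp
      (continuous_id.sub continuous_const)).sub (contph hP hf)).mul cfb).aestronglyMeasurable
      (Eventually.of_forall fun x => ?_)
    rw [norm_mul]
    have h2 : ‖fderiv ℝ u x (b x)‖ ≤ L * ‖b x‖ := abs_fd_le hu x (b x)
    have h3 : 0 ≤ |ph f U (x - h) - ph f U x| := abs_nonneg _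
    calc ‖ph f U (x - h) - ph f U x‖ * ‖fderiv ℝ u x (b x)‖ ≤
          |ph f U (x - h) - ph f U x| * (L * ‖b x‖) :=
          mul_le_mul le_rfl h2 (norm_nonneg _) h3
      _ ≤ _ := by nlinarith [mul_nonneg hL h3]
  have i7 : Integrable fun x => ph f U (x - h) * fderiv ℝ u x (b x) := by
    have := i6.add i3
    refine this.congr (Eventually.of_forall fun x => ?_)
    simp only [Pi.add_apply]
    ring
  have e1 : ∫ x, (ph f U x * (u (x + h) - u (x + h - t • b (x + h))) -
      t * (ph f U x * fderiv ℝ u x (b x))) =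
      (∫ x, ph f U (x - h) * (u x - u (x - t • b x) - t * fderiv ℝ u x (b x))) +
      t * ∫ x, (ph f U (x - h) - ph f U x) * fderiv ℝ u x (b x) := by
    have e2 : ∫ x, ph f U x * (u (x + h) - u (x + h - t • b (x + h))) =
        ∫ x, ph f U (x - h) * (u x - u (x - t • b x)) := by
      rw [← integral_sub_right_eq_self
        (fun x => ph f U x * (u (x + h) - u (x + h - t • b (x + h)))) h]
      simp only [sub_add_cancel]
    have e3 : ∫ x, ph f U (x - h) * (u x - u (x - t • b x) - t * fderiv ℝ u x (b x)) =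
        (∫ x, ph f U (x - h) * (u x - u (x - t • b x))) -
          t * ∫ x, ph f U (x - h) * fderiv ℝ u x (b x) := by
      rw [← integral_const_mul, ← integral_sub i5 (i7.const_mul t)]
      congr 1
      ext x
      ring
    have e4 : ∫ x, (ph f U (x - h) - ph f U x) * fderiv ℝ u x (b x) =
        (∫ x, ph f U (x - h) * fderiv ℝ u x (b x)) - ∫ x, ph f U x * fderiv ℝ u x (b x) := by
      rw [← integral_sub i7 i3]
      congr 1
      ext x
      ring
    rw [integral_sub i4 (i3.const_mul t), integral_const_mul, e2, e3, e4]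
    ring
  have h1 : |∫ x, ph f U (x - h) * (u x - u (x - t • b x) - t * fderiv ℝ u x (b x))| ≤
      C * (M * t ^ 2 * (1 + ‖h‖) ^ 2) := by
    rw [← Real.norm_eq_abs]
    refine (norm_integral_le_of_norm_le (i2.const_mul (M * t ^ 2))
      (Eventually.of_forall fun x => ?_)).trans ?_
    · rw [norm_mul]
      have h2 := taylor_u hu hM x (t • b x)
      rw [map_smul, smul_eq_mul, norm_smul, Real.norm_of_nonneg ht0] at h2
      calc ‖ph f U (x - h)‖ * ‖u x - u (x - t • b x) - t * fderiv ℝ u x (b x)‖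
          ≤ |ph f U (x - h)| * (M * (t * ‖b x‖) ^ 2) :=
            mul_le_mul le_rfl h2 (norm_nonneg _) (abs_nonneg _)
        _ = _ := by ring
    · rw [integral_const_mul]
      calc M * t ^ 2 * ∫ x, |ph f U (x - h)| * ‖b x‖ ^ 2 ≤ M * t ^ 2 * (C * (1 + ‖h‖) ^ 2) :=
            mul_le_mul_of_nonneg_left b2 (by positivity)
        _ = _ := by ring
  have h2 : |∫ x, (ph f U (x - h) - ph f U x) * fderiv ℝ u x (b x)| ≤
      C * (L * (‖h‖ * (1 + ‖h‖) ^ 3)) := by
    rw [← Real.norm_eq_abs]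
    refine (norm_integral_le_of_norm_le (i1.const_mul L)
      (Eventually.of_forall fun x => ?_)).trans ?_
    · rw [norm_mul]
      have h2 : ‖fderiv ℝ u x (b x)‖ ≤ L * ‖b x‖ := abs_fd_le hu x (b x)
      have h3 : 0 ≤ |ph f U (x - h) - ph f U x| := abs_nonneg _
      calc ‖ph f U (x - h) - ph f U x‖ * ‖fderiv ℝ u x (b x)‖ ≤
            |ph f U (x - h) - ph f U x| * (L * ‖b x‖) :=
            mul_le_mul le_rfl h2 (norm_nonneg _) h3
        _ ≤ _ := by nlinarith [mul_nonneg hL h3]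
    · rw [integral_const_mul]
      calc L * ∫ x, |ph f U (x - h) - ph f U x| * (1 + ‖b x‖) ≤
            L * (C * ‖h‖ * (1 + ‖h‖) ^ 3) := mul_le_mul_of_nonneg_left b1 hL
        _ = _ := by ring
  refine ⟨i4.sub (i3.const_mul t), ?_⟩
  rw [e1]
  refine (abs_add_le _ _).trans ?_
  rw [abs_mul, abs_of_nonneg ht0]
  have h3 := mul_le_mul_of_nonneg_left h2 ht0
  calc _ ≤ C * (M * t ^ 2 * (1 + ‖h‖) ^ 2) + t * (C * (L * (‖h‖ * (1 + ‖h‖) ^ 3))) :=
        add_le_add h1 h3
    _ = _ := by ring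

lemma contgrad (hu : Sm u L M) : Continuous fun x => gradient u x := by
  unfold gradient
  exact (InnerProductSpace.toDual ℝ (Eu κ)).symm.continuous.comp (contdf hu)

lemma inner_grad (u : Eu κ → ℝ) (x h : Eu κ) : ⟪gradient u x, h⟫_ℝ = fderiv ℝ u x h := by
  unfold gradient
  exact InnerProductSpace.toDual_symm_apply

lemma norm_grad (hu : Sm u L M) (x : Eu κ) : ‖gradient u x‖ ≤ L := by
  unfold gradient
  rw [LinearIsometryEquiv.norm_map]
  exact hu.grad x

lemma dph_eq (f : Eu κ → ℝ) (U : Eu κ → ℝ) (b : Eu κ → Eu κ) (x h : Eu κ) :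
    dph f U b x h = ⟪gradient f x - f x • b x, h⟫_ℝ * Real.exp (-U x) := by
  unfold dph
  rw [inner_sub_left, inner_smul_left, inner_grad]
  rfl

theorem t_gen (hg : S_gauss) (ht : S_tayl) : S_gen := by
  intro κ _ U b A hP f Lf Mf hf
  obtain ⟨gpos, gcont, gsymm, gint, gone, gmean, gcov⟩ := hg κ
  obtain ⟨C, hC, hT⟩ := ht κ U b A hP f Lf Mf hf
  have hLf : 0 ≤ Lf := (norm_nonneg _).trans (hf.grad 0)
  have gi0 : Integrable (ga (κ := κ)) := by
    have := gint 0
    simpa using this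
  have gpoly : Integrable fun w : Eu κ => (1 + ‖w‖) ^ 6 * ga w := by
    have h1 : (fun w : Eu κ => (1 + ‖w‖) ^ 6 * ga w) = fun w =>
        ‖w‖ ^ 0 * ga w + 6 * (‖w‖ ^ 1 * ga w) + 15 * (‖w‖ ^ 2 * ga w) +
        20 * (‖w‖ ^ 3 * ga w) + 15 * (‖w‖ ^ 4 * ga w) + 6 * (‖w‖ ^ 5 * ga w) +
        ‖w‖ ^ 6 * ga w := by
      ext w; ring
    rw [h1]
    exact ((((((gint 0).add ((gint 1).const_mul 6)).add ((gint 2).const_mul 15)).add
      ((gint 3).const_mul 20)).add ((gint 4).const_mul 15)).add ((gint 5).const_mul 6)).add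
      (gint 6)
  set J : ℝ := ∫ w : Eu κ, (1 + ‖w‖) ^ 6 * ga w with hJ
  have hJ0 : 0 ≤ J := integral_nonneg fun w => mul_nonneg (by positivity) (gpos w).le
  refine ⟨2 * C * J, by positivity, ?_⟩
  intro σ L u hσ hσ1 hσA hL hu
  have hLσ : 0 ≤ L / σ := by positivity
  set t : ℝ := σ ^ 2 / 2 with htdef
  have ht0 : 0 ≤ t := by positivity
  have ht1 : t ≤ 1 := by rw [htdef]; nlinarith
  have cb := contb hP
  have cf := contf hf
  have cu := contf hu
  have cph := contph hP hf
  have cE := contE hP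
  have cgu := contgrad hu
  have cgf := contgrad hf
  have cfb : Continuous fun x => fderiv ℝ u x (b x) := (contdf hu).clm_apply cb
  -- the functions on the product
  set F : Eu κ → Eu κ → ℝ := fun x w =>
    ph f U x * (u x - u (x + σ • w - t • b (x + σ • w))) * ga w with hF
  set F' : Eu κ → Eu κ → ℝ := fun x w =>
    (-(σ * (ph f U x * ⟪gradient u x, w⟫_ℝ)) +
      t * (Real.exp (-U x) * (⟪gradient f x - f x • b x, w⟫_ℝ * ⟪gradient u x, w⟫_ℝ)) +
      t * (ph f U x * fderiv ℝ u x (b x))) * ga w with hF'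
  have cs : Continuous fun z : Eu κ × Eu κ => z.1 + σ • z.2 :=
    continuous_fst.add (continuous_snd.const_smul σ)
  have cF : Continuous (Function.uncurry F) := by
    refine ((cph.comp continuous_fst).mul ((cu.comp continuous_fst).sub (cu.comp
      (cs.sub ((cb.comp cs).const_smul t))))).mul (gcont.comp continuous_snd)
  have cF' : Continuous (Function.uncurry F') := by
    have c1 : Continuous fun z : Eu κ × Eu κ => ⟪gradient u z.1, z.2⟫_ℝ :=
      (cgu.comp continuous_fst).inner continuous_snd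
    have c2 : Continuous fun z : Eu κ × Eu κ => ⟪gradient f z.1 - f z.1 • b z.1, z.2⟫_ℝ :=
      ((cgf.sub (cf.smul cb)).comp continuous_fst).inner continuous_snd
    refine (((continuous_const.mul ((cph.comp continuous_fst).mul c1)).neg.add
      (continuous_const.mul ((cE.comp continuous_fst).mul (c2.mul c1)))).add
      (continuous_const.mul ((cph.comp continuous_fst).mul (cfb.comp continuous_fst)))).mul
      (gcont.comp continuous_snd)
  have iF : Integrable (Function.uncurry F) (volume.prod volume) := by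
    refine ((intE hP).mul_prod (gi0.const_mul 2)).mono' cF.aestronglyMeasurable
      (Eventually.of_forall fun z => ?_)
    obtain ⟨x, w⟩ := z
    have e1 : Function.uncurry F (x, w) =
      ph f U x * (u x - u (x + σ • w - t • b (x + σ • w))) * ga w := rfl
    rw [e1, norm_mul, norm_mul, Real.norm_of_nonneg (gpos w).le]
    have h1 : ‖ph f U x‖ ≤ Real.exp (-U x) := abs_ph_le hf x
    have h2 : ‖u x - u (x + σ • w - t • b (x + σ • w))‖ ≤ 2 := by
      refine (norm_sub_le _ _).trans ?_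
      have h3 : ‖u x‖ ≤ 1 := hu.bdd _
      have h4 : ‖u (x + σ • w - t • b (x + σ • w))‖ ≤ 1 := hu.bdd _
      linarith
    calc ‖ph f U x‖ * ‖u x - u (x + σ • w - t • b (x + σ • w))‖ * ga w ≤
        Real.exp (-U x) * 2 * ga w := mul_le_mul_of_nonneg_right
          (mul_le_mul h1 h2 (norm_nonneg _) (Real.exp_pos _).le) (gpos w).le
      _ = _ := by ring
  have iF' : Integrable (Function.uncurry F') (volume.prod volume) := by
    refine (((intB1 hP).const_mul (L * (Lf + 3))).mul_prod gpoly).mono' cF'.aestronglyMeasurable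
      (Eventually.of_forall fun z => ?_)
    obtain ⟨x, w⟩ := z
    have e1 : Function.uncurry F' (x, w) = (-(σ * (ph f U x * ⟪gradient u x, w⟫_ℝ)) +
      t * (Real.exp (-U x) * (⟪gradient f x - f x • b x, w⟫_ℝ * ⟪gradient u x, w⟫_ℝ)) +
      t * (ph f U x * fderiv ℝ u x (b x))) * ga w := rfl
    rw [e1, norm_mul, Real.norm_of_nonneg (gpos w).le]
    have hE := Real.exp_pos (-U x)
    have h1 : ‖ph f U x‖ ≤ Real.exp (-U x) := abs_ph_le hf x
    have h2 : ‖⟪gradient u x, w⟫_ℝ‖ ≤ L * ‖w‖ := (norm_inner_le_norm _ _).trans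
      (mul_le_mul_of_nonneg_right (norm_grad hu x) (norm_nonneg _))
    have h3 : ‖⟪gradient f x - f x • b x, w⟫_ℝ‖ ≤ (Lf + ‖b x‖) * ‖w‖ := by
      refine (norm_inner_le_norm _ _).trans (mul_le_mul_of_nonneg_right ?_ (norm_nonneg _))
      refine (norm_sub_le _ _).trans (add_le_add (norm_grad hf x) ?_)
      rw [norm_smul]
      exact mul_le_of_le_one_left (norm_nonneg _) (hf.bdd x)
    have h4 : ‖fderiv ℝ u x (b x)‖ ≤ L * ‖b x‖ := abs_fd_le hu x (b x)
    have hb0 : 0 ≤ ‖b x‖ := norm_nonneg _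
    have hw0 : 0 ≤ ‖w‖ := norm_nonneg _
    have h5 : ‖-(σ * (ph f U x * ⟪gradient u x, w⟫_ℝ))‖ ≤ Real.exp (-U x) * (L * ‖w‖) := by
      rw [norm_neg, norm_mul, norm_mul, Real.norm_of_nonneg hσ.le]
      calc σ * (‖ph f U x‖ * ‖⟪gradient u x, w⟫_ℝ‖) ≤ 1 * (Real.exp (-U x) * (L * ‖w‖)) :=
            mul_le_mul hσ1 (mul_le_mul h1 h2 (norm_nonneg _) hE.le) (by positivity) (by norm_num)
        _ = _ := by ring
    have h6 : ‖t * (Real.exp (-U x) * (⟪gradient f x - f x • b x, w⟫_ℝ * ⟪gradient u x, w⟫_ℝ))‖ ≤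
        Real.exp (-U x) * (((Lf + ‖b x‖) * ‖w‖) * (L * ‖w‖)) := by
      rw [norm_mul, norm_mul, norm_mul, Real.norm_of_nonneg ht0, Real.norm_of_nonneg hE.le]
      calc t * (Real.exp (-U x) * (‖⟪gradient f x - f x • b x, w⟫_ℝ‖ * ‖⟪gradient u x, w⟫_ℝ‖)) ≤
            1 * (Real.exp (-U x) * (((Lf + ‖b x‖) * ‖w‖) * (L * ‖w‖))) :=
            mul_le_mul ht1 (mul_le_mul_of_nonneg_left (mul_le_mul h3 h2 (norm_nonneg _)
              (by positivity)) hE.le) (by positivity) (by norm_num)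
        _ = _ := by ring
    have h7 : ‖t * (ph f U x * fderiv ℝ u x (b x))‖ ≤ Real.exp (-U x) * (L * ‖b x‖) := by
      rw [norm_mul, norm_mul, Real.norm_of_nonneg ht0]
      calc t * (‖ph f U x‖ * ‖fderiv ℝ u x (b x)‖) ≤ 1 * (Real.exp (-U x) * (L * ‖b x‖)) :=
            mul_le_mul ht1 (mul_le_mul h1 h4 (norm_nonneg _) hE.le) (by positivity) (by norm_num)
        _ = _ := by ring
    have h8 : ‖-(σ * (ph f U x * ⟪gradient u x, w⟫_ℝ)) +
      t * (Real.exp (-U x) * (⟪gradient f x - f x • b x, w⟫_ℝ * ⟪gradient u x, w⟫_ℝ)) +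
      t * (ph f U x * fderiv ℝ u x (b x))‖ ≤
        L * (Lf + 3) * ((1 + ‖b x‖) * Real.exp (-U x)) * (1 + ‖w‖) ^ 6 := by
      refine (norm_add₃_le).trans ((add_le_add (add_le_add h5 h6) h7).trans ?_)
      have h9 : L * ‖w‖ + ((Lf + ‖b x‖) * ‖w‖) * (L * ‖w‖) + L * ‖b x‖ ≤
          L * (Lf + 3) * (1 + ‖b x‖) * (1 + ‖w‖) ^ 6 := by
        have p6 : (1 + ‖w‖) ^ 2 ≤ (1 + ‖w‖) ^ 6 :=
          pow_le_pow_right₀ (by linarith) (by norm_num)
        have p2 : ‖w‖ ≤ (1 + ‖w‖) ^ 2 := by nlinarith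
        have p3 : ‖w‖ ^ 2 ≤ (1 + ‖w‖) ^ 2 := by nlinarith
        have p4 : 1 ≤ (1 + ‖w‖) ^ 2 := by nlinarith
        have q1 : L * ‖w‖ ≤ L * (1 + ‖w‖) ^ 6 := mul_le_mul_of_nonneg_left (p2.trans p6) hL
        have q2 : ((Lf + ‖b x‖) * ‖w‖) * (L * ‖w‖) ≤ (Lf + ‖b x‖) * L * (1 + ‖w‖) ^ 6 := by
          calc ((Lf + ‖b x‖) * ‖w‖) * (L * ‖w‖) = (Lf + ‖b x‖) * L * ‖w‖ ^ 2 := by ring
            _ ≤ _ := mul_le_mul_of_nonneg_left (p3.trans p6) (by positivity)
        have q3 : L * ‖b x‖ ≤ L * ‖b x‖ * (1 + ‖w‖) ^ 6 :=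
          le_mul_of_one_le_right (by positivity) (p4.trans p6)
        have q4 : (L + (Lf + ‖b x‖) * L + L * ‖b x‖) * (1 + ‖w‖) ^ 6 ≤
            L * (Lf + 3) * (1 + ‖b x‖) * (1 + ‖w‖) ^ 6 := by
          refine mul_le_mul_of_nonneg_right ?_ (by positivity)
          nlinarith [mul_nonneg hL hb0, mul_nonneg (mul_nonneg hL hb0) hLf]
        nlinarith
      calc Real.exp (-U x) * (L * ‖w‖) + Real.exp (-U x) * (((Lf + ‖b x‖) * ‖w‖) * (L * ‖w‖)) +
          Real.exp (-U x) * (L * ‖b x‖) = Real.exp (-U x) *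
            (L * ‖w‖ + ((Lf + ‖b x‖) * ‖w‖) * (L * ‖w‖) + L * ‖b x‖) := by ring
        _ ≤ Real.exp (-U x) * (L * (Lf + 3) * (1 + ‖b x‖) * (1 + ‖w‖) ^ 6) :=
            mul_le_mul_of_nonneg_left h9 hE.le
        _ = _ := by ring
    calc _ ≤ L * (Lf + 3) * ((1 + ‖b x‖) * Real.exp (-U x)) * (1 + ‖w‖) ^ 6 * ga w :=
          mul_le_mul_of_nonneg_right h8 (gpos w).le
      _ = _ := by ring
  -- the left-hand side
  have e1 : EU U (fun x => f x * (u x - Kk σ b u x)) = ∫ x, ∫ w, F x w := by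
    unfold EU
    congr 1
    ext x
    have i1 : Integrable fun w : Eu κ => u (x + σ • w - t • b (x + σ • w)) * ga w := by
      have cs' : Continuous fun w : Eu κ => x + σ • w := continuous_const.add
        (continuous_id.const_smul σ)
      refine gi0.mono' ((cu.comp (cs'.sub ((cb.comp cs').const_smul t))).mul
        gcont).aestronglyMeasurable (Eventually.of_forall fun w => ?_)
      rw [norm_mul, Real.norm_of_nonneg (gpos w).le]
      exact mul_le_of_le_one_left (gpos w).le (hu.bdd _)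
    have e2 : Kk σ b u x = ∫ w : Eu κ, u (x + σ • w - t • b (x + σ • w)) * ga w := rfl
    have e3 : u x - Kk σ b u x = ∫ w : Eu κ, (u x - u (x + σ • w - t • b (x + σ • w))) * ga w := by
      have e4 : (fun w : Eu κ => (u x - u (x + σ • w - t • b (x + σ • w))) * ga w) =
          fun w => u x * ga w - u (x + σ • w - t • b (x + σ • w)) * ga w := by
        ext w; ring
      rw [e4, integral_sub (gi0.const_mul _) i1, integral_const_mul, gone, mul_one, e2]
    have e5 : (fun w : Eu κ => F x w) = fun w =>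
        ph f U x * ((u x - u (x + σ • w - t • b (x + σ • w))) * ga w) := by
      ext w; simp only [hF]; ring
    rw [e5, integral_const_mul]
    change f x * (u x - Kk σ b u x) * Real.exp (-U x) = _
    rw [e3]
    unfold ph
    ring
  have gw1 : ∀ a : Eu κ, Integrable fun w : Eu κ => ⟪a, w⟫_ℝ * ga w := by
    intro a
    refine ((gint 1).const_mul ‖a‖).mono' ((continuous_const.inner continuous_id).mul
      gcont).aestronglyMeasurable (Eventually.of_forall fun w => ?_)
    rw [norm_mul, Real.norm_of_nonneg (gpos w).le, pow_one]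
    have := norm_inner_le_norm (𝕜 := ℝ) a w
    nlinarith [mul_le_mul_of_nonneg_right this (gpos w).le]
  have gw2 : ∀ a c : Eu κ, Integrable fun w : Eu κ => ⟪a, w⟫_ℝ * ⟪c, w⟫_ℝ * ga w := by
    intro a c
    refine ((gint 2).const_mul (‖a‖ * ‖c‖)).mono' (((continuous_const.inner continuous_id).mul
      (continuous_const.inner continuous_id)).mul
      gcont).aestronglyMeasurable (Eventually.of_forall fun w => ?_)
    rw [norm_mul, norm_mul, Real.norm_of_nonneg (gpos w).le]
    have h1 := norm_inner_le_norm (𝕜 := ℝ) a w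
    have h2 := norm_inner_le_norm (𝕜 := ℝ) c w
    have h3 := mul_le_mul h1 h2 (norm_nonneg _) (by positivity)
    nlinarith [mul_le_mul_of_nonneg_right h3 (gpos w).le]
  have e2 : t * EU U (fun x => fderiv ℝ u x (gradient f x)) = ∫ x, ∫ w, F' x w := by
    unfold EU
    rw [← integral_const_mul]
    congr 1
    ext x
    have e3 : (fun w : Eu κ => F' x w) = fun w =>
        -(σ * ph f U x) * (⟪gradient u x, w⟫_ℝ * ga w) +
        t * Real.exp (-U x) * (⟪gradient f x - f x • b x, w⟫_ℝ * ⟪gradient u x, w⟫_ℝ * ga w) +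
        t * (ph f U x * fderiv ℝ u x (b x)) * ga w := by
      ext w; simp only [hF']; ring
    have i1 : Integrable fun w : Eu κ => -(σ * ph f U x) * (⟪gradient u x, w⟫_ℝ * ga w) :=
      (gw1 _).const_mul _
    have i2 : Integrable fun w : Eu κ => t * Real.exp (-U x) *
        (⟪gradient f x - f x • b x, w⟫_ℝ * ⟪gradient u x, w⟫_ℝ * ga w) := (gw2 _ _).const_mul _
    have i3 : Integrable fun w : Eu κ => t * (ph f U x * fderiv ℝ u x (b x)) * ga w :=
      gi0.const_mul _
    have i4 : Integrable fun w : Eu κ => -(σ * ph f U x) * (⟪gradient u x, w⟫_ℝ * ga w) +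
        t * Real.exp (-U x) *
          (⟪gradient f x - f x • b x, w⟫_ℝ * ⟪gradient u x, w⟫_ℝ * ga w) := i1.add i2
    change t * (fderiv ℝ u x (gradient f x) * Real.exp (-U x)) = _
    rw [e3, integral_add i4 i3, integral_add i1 i2, integral_const_mul, integral_const_mul,
      integral_const_mul, gmean, gcov, gone, inner_sub_left, inner_smul_left, ← inner_grad u x,
      ← inner_grad u x, real_inner_comm (gradient f x), real_inner_comm (b x)]
    simp only [ph, conj_trivial]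
    ring
  have iFl : Integrable fun x => ∫ w, F x w := iF.integral_prod_left
  have iFl' : Integrable fun x => ∫ w, F' x w := iF'.integral_prod_left
  rw [e1, e2, ← integral_sub iFl iFl']
  have e3 : ∫ x, (∫ w, F x w) - ∫ w, F' x w = ∫ x, ∫ w, (F x w - F' x w) := by
    refine integral_congr_ae ?_
    filter_upwards [iF.prod_right_ae, iF'.prod_right_ae] with x h1 h2
    exact (integral_sub h1 h2).symm
  have iD : Integrable (Function.uncurry fun x w => F x w - F' x w) (volume.prod volume) :=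
    iF.sub iF'
  have e4 : ∫ x, ∫ w, (F x w - F' x w) = ∫ w, ∫ x, (F x w - F' x w) :=
    integral_integral_swap iD
  rw [e3, e4, ← Real.norm_eq_abs]
  refine (norm_integral_le_of_norm_le (gpoly.const_mul (2 * C * L * σ ^ 3))
    (Eventually.of_forall fun w => ?_)).trans ?_
  · obtain ⟨t1, t2, t3, t4, t5, t6⟩ := hT (σ • w)
    obtain ⟨i1, c1⟩ := claim1 hP hf hu hC (fun w => ⟨(hT w).2.2.1, (hT w).2.2.2.1⟩) (σ • w)
    obtain ⟨i2, c2⟩ := claim2 hP hf hu hLσ ht0 (σ • w) t1 t2 t5 t6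
    have e6 : ∫ x, (F x w - F' x w) = ga w *
        ((∫ x, (ph f U x * (u x - u (x + σ • w)) + ph f U x * fderiv ℝ u x (σ • w) -
      1 / 2 * (dph f U b x (σ • w) * fderiv ℝ u x (σ • w)))) +
        ∫ x, (ph f U x * (u (x + σ • w) - u (x + σ • w - t • b (x + σ • w))) -
      t * (ph f U x * fderiv ℝ u x (b x)))) := by
      rw [← integral_add i1 i2, ← integral_const_mul]
      congr 1
      ext x
      simp only [hF, hF', dph_eq, inner_grad, map_smul, inner_smul_right, smul_eq_mul, htdef]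
      ring
    rw [e6, norm_mul, Real.norm_of_nonneg (gpos w).le]
    have hw0 : 0 ≤ ‖w‖ := norm_nonneg _
    have hn : ‖σ • w‖ = σ * ‖w‖ := by rw [norm_smul, Real.norm_of_nonneg hσ.le]
    have hn1 : σ * ‖w‖ ≤ ‖w‖ := mul_le_of_le_one_left hw0 hσ1
    rw [hn] at c1 c2
    have p6 : ∀ k ≤ 6, (1 + ‖w‖) ^ k ≤ (1 + ‖w‖) ^ 6 := fun k hk =>
      pow_le_pow_right₀ (by linarith) hk
    have d1 : (σ * ‖w‖) ^ 3 * (1 + σ * ‖w‖) ^ 3 ≤ σ ^ 3 * (1 + ‖w‖) ^ 6 := by
      calc (σ * ‖w‖) ^ 3 * (1 + σ * ‖w‖) ^ 3 = σ ^ 3 * (‖w‖ ^ 3 * (1 + σ * ‖w‖) ^ 3) := by ring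
        _ ≤ σ ^ 3 * ((1 + ‖w‖) ^ 3 * (1 + ‖w‖) ^ 3) := by
            gcongr
            linarith
        _ = _ := by ring
    have d2 : L / σ * t ^ 2 * (1 + σ * ‖w‖) ^ 2 ≤ L * σ ^ 3 / 4 * (1 + ‖w‖) ^ 6 := by
      have h1 : L / σ * t ^ 2 = L * σ ^ 3 / 4 := by
        rw [htdef]; field_simp; ring
      rw [h1]
      refine mul_le_mul_of_nonneg_left ?_ (by positivity)
      refine le_trans ?_ (p6 2 (by norm_num))
      gcongr
    have d3 : t * L * (σ * ‖w‖ * (1 + σ * ‖w‖) ^ 3) ≤ L * σ ^ 3 / 2 * (1 + ‖w‖) ^ 6 := by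
      calc t * L * (σ * ‖w‖ * (1 + σ * ‖w‖) ^ 3) =
            L * σ ^ 3 / 2 * (‖w‖ * (1 + σ * ‖w‖) ^ 3) := by rw [htdef]; ring
        _ ≤ L * σ ^ 3 / 2 * ((1 + ‖w‖) * (1 + ‖w‖) ^ 3) := by
            gcongr
            linarith
        _ = L * σ ^ 3 / 2 * (1 + ‖w‖) ^ 4 := by ring
        _ ≤ _ := mul_le_mul_of_nonneg_left (p6 4 (by norm_num)) (by positivity)
    have q0 : 0 ≤ L * σ ^ 3 * (1 + ‖w‖) ^ 6 := by positivity
    have d4 : C * L * ((σ * ‖w‖) ^ 3 * (1 + σ * ‖w‖) ^ 3) ≤ C * (L * σ ^ 3 * (1 + ‖w‖) ^ 6) := by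
      calc C * L * ((σ * ‖w‖) ^ 3 * (1 + σ * ‖w‖) ^ 3) ≤ C * L * (σ ^ 3 * (1 + ‖w‖) ^ 6) :=
            mul_le_mul_of_nonneg_left d1 (by positivity)
        _ = _ := by ring
    have d5 : C * (L / σ * t ^ 2 * (1 + σ * ‖w‖) ^ 2 + t * L * (σ * ‖w‖ * (1 + σ * ‖w‖) ^ 3)) ≤
        C * (L * σ ^ 3 * (1 + ‖w‖) ^ 6) :=
      mul_le_mul_of_nonneg_left (by linarith) hC
    have d6 := (norm_add_le (∫ x, (ph f U x * (u x - u (x + σ • w)) +
      ph f U x * fderiv ℝ u x (σ • w) - 1 / 2 * (dph f U b x (σ • w) * fderiv ℝ u x (σ • w))))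
        (∫ x, (ph f U x * (u (x + σ • w) - u (x + σ • w - t • b (x + σ • w))) -
      t * (ph f U x * fderiv ℝ u x (b x))))).trans (add_le_add (c1.trans d4) (c2.trans d5))
    calc _ ≤ ga w * (C * (L * σ ^ 3 * (1 + ‖w‖) ^ 6) + C * (L * σ ^ 3 * (1 + ‖w‖) ^ 6)) :=
          mul_le_mul_of_nonneg_left d6 (gpos w).le
      _ = _ := by ring
  · rw [integral_const_mul]
    exact le_of_eq (by ring)

end Pool.Agent.W500.KH
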